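import Pool.Agent.W401.Cheb.AbsDefs

/-!
# Direct sums of characters
-/

set_option autoImplicit false

namespace Run7.h158.MT

open Pool.Agent.W401.Cheb

/-- The matrix `M` is diagonalizable over the field `F`. -/
def Dg {κ F : Type} [Fintype κ] [DecidableEq κ] [Field F] (M : Matrix κ κ F) : Prop :=
  ∃ (P Q : Matrix κ κ F) (d : κ → F), P * Q = 1 ∧ M = P * Matrix.diagonal d * Q

variable {κ : Type} [Fintype κ] [DecidableEq κ] {ℓ : ℕ} [Fact ℓ.Prime]

/-- Extension of scalars to the algebraic closure. -/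
noncomputable def upc (M : Matrix κ κ ℚ_[ℓ]) : Matrix κ κ (PadicAlgCl ℓ) :=
  M.map (algebraMap ℚ_[ℓ] (PadicAlgCl ℓ))

/-- The matrix `M` is diagonalizable over the algebraic closure of `ℚ_ℓ`. -/
def Diag (M : Matrix κ κ ℚ_[ℓ]) : Prop := Dg (upc M)

/-- The restriction of `ρ` to the subgroup `U` is, over the algebraic closure of `ℚ_ℓ`, a direct sum of
characters: the `ρ σ` are diagonalizable and commute with each other. -/
def SumOfCharacters {K : Type} [Field K] (U : Subgroup (GK K)) (ρ : GK K → Matrix κ κ ℚ_[ℓ]) :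
    Prop :=
  (∀ σ ∈ U, Diag (ρ σ)) ∧ ∀ σ ∈ U, ∀ τ ∈ U, ρ σ * ρ τ = ρ τ * ρ σ

/-- The restriction of `ρ` to some open subgroup is a direct sum of characters. -/
def PotAb {K : Type} [Field K] (ρ : GK K → Matrix κ κ ℚ_[ℓ]) : Prop :=
  ∃ U : Subgroup (GK K), IsOpen (U : Set (GK K)) ∧ SumOfCharacters U ρ

end Run7.h158.MT
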