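import Pool.Agent.Run7.h158.MT.Ss
import Pool.Agent.Run7.h158.MT.DefsP
import Pool.Agent.Run7.h475.MT.Log
import Pool.Agent.Run7.h615.MT.Kron

/-!
# Diagonalizable matrices
-/

set_option autoImplicit false

namespace Run7.h158.MT

open Module Matrix Pool.Agent.N184.HK Run7.h457.MT Filter Topology

section

variable {κ F : Type} [Fintype κ] [DecidableEq κ] [Field F] {V : Type} [AddCommGroup V]
  [Module F V]

lemma dg_pow {M P Q : Matrix κ κ F} {d : κ → F} (hPQ : P * Q = 1)
    (hM : M = P * Matrix.diagonal d * Q) (n : ℕ) :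
    M ^ n = P * Matrix.diagonal (fun a => d a ^ n) * Q := by
  have hQP : Q * P = 1 := mul_eq_one_comm.1 hPQ
  induction n with
  | zero =>
    have : (Matrix.diagonal fun a => d a ^ 0) = (1 : Matrix κ κ F) := by
      simp
    rw [this, mul_one, hPQ, pow_zero]
  | succ n ih =>
    have h1 : (Matrix.diagonal fun a => d a ^ (n + 1)) =
        Matrix.diagonal (fun a => d a ^ n) * Matrix.diagonal d := by
      rw [Matrix.diagonal_mul_diagonal]
      congr 1
      funext a
      exact pow_succ _ _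
    rw [pow_succ, ih, h1]
    nth_rewrite 1 [hM]
    calc _ = P * Matrix.diagonal (fun a => d a ^ n) * (Q * P) * Matrix.diagonal d * Q := by
          noncomm_ring
      _ = _ := by rw [hQP]; noncomm_ring

lemma dg_aeval {M : Matrix κ κ F} (h : Dg M) (p : Polynomial F) : Dg (Polynomial.aeval M p) := by
  obtain ⟨P, Q, d, hPQ, hM⟩ := h
  refine ⟨P, Q, fun a => p.eval (d a), hPQ, ?_⟩
  induction p using Polynomial.induction_on' with
  | add p q hp hq =>
    rw [map_add, hp, hq, ← add_mul, ← mul_add, Matrix.diagonal_add]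
    simp only [Polynomial.eval_add]
  | monomial n a =>
    rw [Polynomial.aeval_monomial, dg_pow hPQ hM]
    have h1 : (Matrix.diagonal fun c => (Polynomial.monomial n a).eval (d c)) =
        a • Matrix.diagonal fun c => d c ^ n := by
      rw [← Matrix.diagonal_smul]
      congr 1
      funext c
      simp
    rw [h1, Matrix.mul_smul, Matrix.smul_mul, ← Algebra.smul_def]

lemma dg_scalar {M : Matrix κ κ F} (h : Dg M) (c : F) : Dg (c • 1 + M) := by
  obtain ⟨P, Q, d, hPQ, hM⟩ := h
  refine ⟨P, Q, fun a => c + d a, hPQ, ?_⟩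
  have h1 : (Matrix.diagonal fun a => c + d a) = c • (1 : Matrix κ κ F) + Matrix.diagonal d := by
    rw [← Matrix.diagonal_one, ← Matrix.diagonal_smul, Matrix.diagonal_add]
    congr 1
    funext a
    simp
  rw [h1, mul_add, add_mul, Matrix.mul_smul, mul_one, Matrix.smul_mul, hPQ, hM]

omit [Fintype κ] [DecidableEq κ] in
lemma pow_eq_zero_iff_of_pos' {x : F} {k : ℕ} (h : x ^ k = 0) : x = 0 := by
  rcases Nat.eq_zero_or_pos k with h6 | h6
  · rw [h6] at h
    simp at h
  · exact (pow_eq_zero_iff h6.ne').1 h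

lemma ss_of_dg {b : Basis κ F V} {f : Module.End F V} (h : Dg (LinearMap.toMatrix b b f)) :
    SS f := by
  obtain ⟨P, Q, d, hPQ, hM⟩ := h
  have hQP : Q * P = 1 := mul_eq_one_comm.1 hPQ
  intro e x hx
  rw [Module.End.mem_maxGenEigenspace] at hx
  obtain ⟨k, hk⟩ := hx
  set y := Q *ᵥ b.repr x with hy
  have hPy : P *ᵥ y = b.repr x := by
    rw [hy, Matrix.mulVec_mulVec, hPQ, Matrix.one_mulVec]
  -- the action in the new coordinates
  have h1 : ∀ (x : V), Q *ᵥ b.repr (f x) = Matrix.diagonal d *ᵥ (Q *ᵥ b.repr x) := by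
    intro x
    rw [← LinearMap.toMatrix_mulVec_repr b b f, hM, Matrix.mulVec_mulVec, Matrix.mulVec_mulVec,
      ← mul_assoc, ← mul_assoc, hQP, one_mul]
  have h2 : ∀ (k : ℕ) (x : V) (a : κ), (Q *ᵥ b.repr (((f - e • (1 : Module.End F V)) ^ k) x)) a =
      (d a - e) ^ k * (Q *ᵥ b.repr x) a := by
    intro k
    induction k with
    | zero => intro x a; simp
    | succ k ih =>
      intro x a
      rw [pow_succ, Module.End.mul_apply, ih]
      have h3 : (f - e • (1 : Module.End F V)) x = f x - e • x := rfl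
      rw [h3, map_sub, map_smul, Finsupp.coe_sub, Finsupp.coe_smul, Matrix.mulVec_sub,
        Matrix.mulVec_smul, h1, Pi.sub_apply, Pi.smul_apply, Matrix.mulVec_diagonal, smul_eq_mul,
        pow_succ]
      ring
  have h3 : ∀ a, (d a - e) * y a = 0 := by
    intro a
    have h4 := h2 k x a
    rw [hk, map_zero, Finsupp.coe_zero, Matrix.mulVec_zero, Pi.zero_apply] at h4
    rcases mul_eq_zero.1 h4.symm with h5 | h5
    · rw [pow_eq_zero_iff_of_pos' h5, zero_mul]
    · rw [hy, h5, mul_zero]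
  have h4 : b.repr (f x) = b.repr (e • x) := by
    refine DFunLike.coe_injective ?_
    have h5 : P *ᵥ (Q *ᵥ b.repr (f x)) = P *ᵥ (Q *ᵥ b.repr (e • x)) := by
      congr 1
      rw [h1]
      funext a
      rw [Matrix.mulVec_diagonal, map_smul, Finsupp.coe_smul, Matrix.mulVec_smul, Pi.smul_apply,
        smul_eq_mul]
      have := h3 a
      rw [hy] at this
      linear_combination this
    rw [Matrix.mulVec_mulVec, Matrix.mulVec_mulVec, hPQ, Matrix.one_mulVec,
      Matrix.one_mulVec] at h5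
    exact h5
  exact b.repr.injective h4

lemma dg_of_ss [IsAlgClosed F] {b : Basis κ F V} {f : Module.End F V} (h : SS f) :
    Dg (LinearMap.toMatrix b b f) := by
  have : FiniteDimensional F V := b.finiteDimensional_of_finite
  -- a basis of eigenvectors
  set E : Set V := {x | ∃ e : F, f x = e • x} with hE
  have hspan : ⊤ ≤ Submodule.span F E := by
    rw [← Module.End.iSup_maxGenEigenspace_eq_top f]
    refine iSup_le fun e x hx => ?_
    exact Submodule.subset_span ⟨e, h e x hx⟩
  set b₀ := Basis.ofSpan hspan with hb₀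
  have hb₀E : Set.range b₀ ⊆ E := Basis.ofSpan_subset hspan
  have : Fintype ((linearIndepOn_empty F (id : V → V)).extend (Set.empty_subset E)) :=
    FiniteDimensional.fintypeBasisIndex b₀
  have hcard : Fintype.card ((linearIndepOn_empty F (id : V → V)).extend (Set.empty_subset E)) =
      Fintype.card κ := by
    rw [← finrank_eq_card_basis b₀, finrank_eq_card_basis b]
  set b₁ := b₀.reindex (Fintype.equivOfCardEq hcard) with hb₁
  have hb₁E : ∀ a, ∃ e : F, f (b₁ a) = e • b₁ a := by
    intro a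
    rw [hb₁, Basis.reindex_apply]
    exact hb₀E ⟨_, rfl⟩
  choose d hd using hb₁E
  refine ⟨b.toMatrix b₁, b₁.toMatrix b, d, Basis.toMatrix_mul_toMatrix_flip _ _, ?_⟩
  have h1 : LinearMap.toMatrix b₁ b₁ f = Matrix.diagonal d := by
    ext i j
    rw [LinearMap.toMatrix_apply, hd, map_smul, Basis.repr_self, Finsupp.smul_single,
      Finsupp.single_apply, Matrix.diagonal_apply, smul_eq_mul, mul_one]
    by_cases h : j = i
    · rw [if_pos h, if_pos h.symm, h]
    · rw [if_neg h, if_neg (Ne.symm h)]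
  rw [← h1, basis_toMatrix_mul_linearMap_toMatrix_mul_basis_toMatrix]

end

section

variable {F : Type} [Field F]

lemma dg_kron {S : Type} [Fintype S] [DecidableEq S] {I : S → Type} [∀ s, Fintype (I s)]
    [∀ s, DecidableEq (I s)] {A : ∀ s, Matrix (I s) (I s) F} (h : ∀ s, Dg (A s)) :
    Dg (kron A) := by
  choose P Q d hPQ hA using h
  refine ⟨kron P, kron Q, fun u => ∏ s, d s (u s), ?_, ?_⟩
  · rw [Run7.h615.MT.kron_mul]
    have : (fun s => P s * Q s) = fun s => (1 : Matrix (I s) (I s) F) := funext hPQ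
    rw [this, Run7.h615.MT.kron_one]
  · have h1 : kron (fun s => Matrix.diagonal (d s)) =
        Matrix.diagonal fun u : ∀ s, I s => ∏ s, d s (u s) := by
      ext u v
      rw [Matrix.diagonal_apply]
      change ∏ s, Matrix.diagonal (d s) (u s) (v s) = _
      by_cases huv : u = v
      · rw [if_pos huv, huv]
        exact Finset.prod_congr rfl fun s _ => Matrix.diagonal_apply_eq _ _
      · rw [if_neg huv]
        obtain ⟨s, hs⟩ := Function.ne_iff.1 huv
        exact Finset.prod_eq_zero (Finset.mem_univ s) (Matrix.diagonal_apply_ne _ hs)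
    have h2 : A = fun s => P s * Matrix.diagonal (d s) * Q s := funext hA
    rw [← h1, Run7.h615.MT.kron_mul, Run7.h615.MT.kron_mul]
    exact congrArg kron h2

lemma dg_block {C : Type} [Fintype C] [DecidableEq C] {I : C → Type} [∀ s, Fintype (I s)]
    [∀ s, DecidableEq (I s)] {A : ∀ s, Matrix (I s) (I s) F} (h : ∀ s, Dg (A s)) :
    Dg (Matrix.blockDiagonal' A) := by
  choose P Q d hPQ hA using h
  refine ⟨Matrix.blockDiagonal' P, Matrix.blockDiagonal' Q, fun u => d u.1 u.2, ?_, ?_⟩
  · rw [← Matrix.blockDiagonal'_mul]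
    have : (fun s => P s * Q s) = fun s => (1 : Matrix (I s) (I s) F) := funext hPQ
    rw [this]
    exact Matrix.blockDiagonal'_one
  · have h1 : Matrix.blockDiagonal' (fun s => Matrix.diagonal (d s)) =
        Matrix.diagonal fun u : Σ s, I s => d u.1 u.2 := by
      exact Matrix.blockDiagonal'_diagonal d
    rw [← h1, ← Matrix.blockDiagonal'_mul, ← Matrix.blockDiagonal'_mul]
    exact congrArg Matrix.blockDiagonal' (funext hA)

end

section log

variable {ℓ : ℕ} [Fact ℓ.Prime] {κ : Type} [Fintype κ] [DecidableEq κ]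

/-- A matrix near `1` is a polynomial in its logarithm. -/
theorem log_poly {g L : Matrix κ κ ℚ_[ℓ]} (hg : NearOne 2 g) (hL : IsLog g L) :
    ∃ p : Polynomial ℚ_[ℓ], g = Polynomial.aeval L p := by
  have hl : (ℓ : ℚ_[ℓ]) ≠ 0 := by exact_mod_cast (Fact.out : ℓ.Prime).ne_zero
  obtain ⟨Y, rfl⟩ := Run7.h475.MT.near_form hg
  obtain ⟨z, c, h0, h1, Z, hZ, h⟩ := Run7.h475.MT.log_form Y
  have hLZ := Run7.h475.MT.log_unique hL h
  obtain ⟨r, hr⟩ := Run7.h475.MT.mem_alg.1 (Run7.h475.MT.nak h0 h1 hZ)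
  have h2 : ∀ r : Polynomial ℤ_[ℓ], ∃ p : Polynomial ℚ_[ℓ],
      Run7.h475.MT.up κ ℓ (Polynomial.aeval Z r) = Polynomial.aeval L p := by
    intro r
    induction r using Polynomial.induction_on' with
    | add p q hp hq =>
      obtain ⟨p', hp'⟩ := hp
      obtain ⟨q', hq'⟩ := hq
      exact ⟨p' + q', by rw [map_add, map_add, map_add, hp', hq']⟩
    | monomial n a =>
      refine ⟨Polynomial.monomial n ((a : ℚ_[ℓ]) * (((ℓ : ℚ_[ℓ]) ^ 2)⁻¹) ^ n), ?_⟩
      rw [Polynomial.aeval_monomial, Polynomial.aeval_monomial, ← Algebra.smul_def,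
        ← Algebra.smul_def, Run7.h475.MT.up_smul, map_pow, hLZ, smul_pow, smul_smul, mul_assoc,
        ← mul_pow, inv_mul_cancel₀ (pow_ne_zero 2 hl), one_pow, mul_one]
  obtain ⟨p, hp⟩ := h2 r
  refine ⟨1 + Polynomial.C ((ℓ : ℚ_[ℓ]) ^ 2) * p, ?_⟩
  rw [map_add, map_one, map_add (Polynomial.aeval L), map_one, map_mul (Polynomial.aeval L),
    Polynomial.aeval_C, ← Algebra.smul_def, ← hp, Run7.h475.MT.up_natCast_pow_mul, hr]

lemma dg_lim {F : Type} [NormedField F] {t : ℕ → F} {M : Matrix κ κ F} {e : ℕ → ℕ}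
    {L : Matrix κ κ F} (h : Dg M)
    (hL : Tendsto (fun n => (t n)⁻¹ • (M ^ e n - 1)) atTop (𝓝 L)) : Dg L := by
  obtain ⟨P, Q, d, hPQ, hM⟩ := h
  have hQP : Q * P = 1 := mul_eq_one_comm.1 hPQ
  have h1 : Tendsto (fun n => Q * ((t n)⁻¹ • (M ^ e n - 1)) * P) atTop (𝓝 (Q * L * P)) :=
    (tendsto_const_nhds.mul hL).mul tendsto_const_nhds
  have h2 : ∀ n, Q * ((t n)⁻¹ • (M ^ e n - 1)) * P =
      Matrix.diagonal fun a => (t n)⁻¹ * (d a ^ e n - 1) := by
    intro n
    have h3 : (Matrix.diagonal fun a => (t n)⁻¹ * (d a ^ e n - 1)) =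
        (t n)⁻¹ • (Matrix.diagonal (fun a => d a ^ e n) - 1) := by
      rw [← Matrix.diagonal_one, Matrix.diagonal_sub, ← Matrix.diagonal_smul]
      congr 1
    rw [h3, dg_pow hPQ hM, Matrix.mul_smul, Matrix.smul_mul]
    congr 1
    calc _ = (Q * P) * Matrix.diagonal (fun a => d a ^ e n) * (Q * P) - Q * P := by noncomm_ring
      _ = _ := by rw [hQP, one_mul, mul_one]
  have h3 : ∀ a b, a ≠ b → (Q * L * P) a b = 0 := by
    intro a b hab
    have h4 : Tendsto (fun n => (Q * ((t n)⁻¹ • (M ^ e n - 1)) * P) a b) atTop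
        (𝓝 ((Q * L * P) a b)) := by
      have h5 : Continuous fun M : Matrix κ κ F => M a b :=
        (continuous_apply b).comp (continuous_apply a)
      exact (h5.tendsto _).comp h1
    refine tendsto_nhds_unique h4 ?_
    refine tendsto_const_nhds.congr fun n => ?_
    rw [h2, Matrix.diagonal_apply_ne _ hab]
  refine ⟨P, Q, fun a => (Q * L * P) a a, hPQ, ?_⟩
  have h4 : (Matrix.diagonal fun a => (Q * L * P) a a) = Q * L * P := by
    ext a b
    rw [Matrix.diagonal_apply]
    by_cases hab : a = b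
    · rw [if_pos hab, hab]
    · rw [if_neg hab, h3 a b hab]
  rw [h4]
  calc L = (P * Q) * L * (P * Q) := by rw [hPQ, one_mul, mul_one]
    _ = _ := by noncomm_ring

end log

end Run7.h158.MT
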