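import Pool.Agent.Run7.h158.MT.Dg
import Pool.Agent.Run7.h457.MT.Ml4

/-!
# Potentially abelian representations on the cohomology of hyperkähler varieties
-/

set_option autoImplicit false

namespace Run7.h158.MT

open Module Matrix Pool.Agent.N184.HK Run7.h457.MT Filter Topology NumberField
open Pool.Agent.W401.Cheb

noncomputable section

set_option linter.unusedSectionVars false

section

variable {κ : Type} [Fintype κ] [DecidableEq κ] {ℓ : ℕ} [Fact ℓ.Prime]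

lemma upc_mul (A B : Matrix κ κ ℚ_[ℓ]) : upc (A * B) = upc A * upc B :=
  Matrix.map_mul

lemma upc_inj {A B : Matrix κ κ ℚ_[ℓ]} (h : upc A = upc B) : A = B :=
  Matrix.map_injective (algebraMap ℚ_[ℓ] (PadicAlgCl ℓ)).injective h

lemma upc_aeval (L : Matrix κ κ ℚ_[ℓ]) (p : Polynomial ℚ_[ℓ]) : upc (Polynomial.aeval L p) =
    Polynomial.aeval (upc L) (p.map (algebraMap ℚ_[ℓ] (PadicAlgCl ℓ))) := by
  induction p using Polynomial.induction_on' with
  | add p q hp hq =>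
    rw [Polynomial.map_add, map_add (Polynomial.aeval (upc L)), ← hp, ← hq, map_add]
    exact Matrix.map_add _ (map_add _) _ _
  | monomial n a =>
    rw [Polynomial.map_monomial, Polynomial.aeval_monomial, Polynomial.aeval_monomial,
      ← Algebra.smul_def, ← Algebra.smul_def]
    have h1 : upc (L ^ n) = upc L ^ n := by
      unfold upc
      rw [← RingHom.mapMatrix_apply, ← RingHom.mapMatrix_apply, map_pow]
    rw [← h1]
    ext i j
    simp [upc, Matrix.map_apply, Matrix.smul_apply]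

/-- Two commuting matrices have commuting logarithms. -/
lemma log_comm {g g' L L' : Matrix κ κ ℚ_[ℓ]} (hL : IsLog g L) (hL' : IsLog g' L')
    (h : Commute g g') : Commute L L' := by
  have h1 : Tendsto (fun n : ℕ => (((ℓ : ℚ_[ℓ]) ^ n)⁻¹ • (g ^ ℓ ^ n - 1)) *
      (((ℓ : ℚ_[ℓ]) ^ n)⁻¹ • (g' ^ ℓ ^ n - 1))) atTop (𝓝 (L * L')) := hL.mul hL'
  have h2 : Tendsto (fun n : ℕ => (((ℓ : ℚ_[ℓ]) ^ n)⁻¹ • (g' ^ ℓ ^ n - 1)) *
      (((ℓ : ℚ_[ℓ]) ^ n)⁻¹ • (g ^ ℓ ^ n - 1))) atTop (𝓝 (L' * L)) := hL'.mul hL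
  refine tendsto_nhds_unique h1 (h2.congr fun n => ?_)
  have h3 : Commute (g ^ ℓ ^ n - 1) (g' ^ ℓ ^ n - 1) :=
    ((h.pow_pow _ _).sub_right (Commute.one_right _)).sub_left
      ((Commute.one_left _).sub_right (Commute.one_right _))
  exact ((h3.smul_left _).smul_right _).symm.eq

/-- The logarithm of a diagonalizable matrix is diagonalizable. -/
lemma log_dg {g L : Matrix κ κ ℚ_[ℓ]} (hL : IsLog g L) (h : Diag g) : Diag L := by
  have h1 : Continuous fun A : Matrix κ κ ℚ_[ℓ] => upc A := continuous_id.matrix_map cont_algMap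
  have h2 := (h1.tendsto L).comp hL
  refine dg_lim (t := tt ℓ) (e := fun n => ℓ ^ n) h (h2.congr fun n => ?_)
  change upc (((ℓ : ℚ_[ℓ]) ^ n)⁻¹ • (g ^ ℓ ^ n - 1)) = _
  have h3 : upc (g ^ ℓ ^ n) = upc g ^ ℓ ^ n := by
    unfold upc
    rw [← RingHom.mapMatrix_apply, ← RingHom.mapMatrix_apply, map_pow]
  rw [← h3, tt_eq]
  ext a b
  have hone : algebraMap ℚ_[ℓ] (PadicAlgCl ℓ) ((1 : Matrix κ κ ℚ_[ℓ]) a b) =
      (1 : Matrix κ κ (PadicAlgCl ℓ)) a b := by
    rw [Matrix.one_apply, Matrix.one_apply]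
    split_ifs <;> simp
  simp only [upc, Matrix.map_apply, Matrix.smul_apply, Matrix.sub_apply, smul_eq_mul, map_mul,
    map_sub, map_inv₀, hone]

end

section

variable {K : Type} [Field K] [NumberField K] {ℓ : ℕ} [Fact ℓ.Prime]
  {X : HKVariety K (PadicAlgCl ℓ)} {B : LLV X.d} (C : Comparison X B)

/-- On `H^i`, near `1`. -/
theorem pot_one {U : Subgroup (GK K)} (hU : IsOpen (U : Set (GK K))) {i : ℕ} (hi : i ≤ X.d)
    (hc : ∀ σ ∈ U, ∀ c ∈ cen X.E.X i, Commute c (X.E.Φ σ i))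
    (hn : ∀ σ ∈ U, NearOne 2 (C.G i σ)) (hn2 : ∀ σ ∈ U, NearOne 2 (C.G 2 σ))
    (hd : ∀ σ ∈ U, Diag (C.G 2 σ))
    (hcm : ∀ σ ∈ U, ∀ τ ∈ U, C.G 2 σ * C.G 2 τ = C.G 2 τ * C.G 2 σ) :
    (∀ σ ∈ U, Diag (C.G i σ)) ∧ ∀ σ ∈ U, ∀ τ ∈ U, C.G i σ * C.G i τ = C.G i τ * C.G i σ := by
  -- the logarithms
  have key : ∀ σ ∈ U, ∃ (Li : Matrix (Fin (B.n i)) (Fin (B.n i)) ℚ_[ℓ])
      (L2 : Matrix (Fin (B.n 2)) (Fin (B.n 2)) ℚ_[ℓ]) (c c' : PadicAlgCl ℓ)
      (A : Module.End (PadicAlgCl ℓ) (X.E.X.H 2)),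
      IsLog (C.G i σ) Li ∧ IsLog (C.G 2 σ) L2 ∧ Skew X.E.X.q A ∧
      LinearMap.toMatrix (C.b 2) (C.b 2) A = c' • 1 + upc L2 ∧
      upc Li = c • 1 + LinearMap.toMatrix (C.b i) (C.b i) (X.E.X.ρ i A) := by
    intro σ hσ
    obtain ⟨Li, hLi⟩ := Run7.h475.MT.t_LOGEX ℓ _ _ (hn σ hσ)
    obtain ⟨L2, hL2⟩ := Run7.h475.MT.t_LOGEX ℓ _ _ (hn2 σ hσ)
    obtain ⟨l, hl, hL⟩ := form_log hL2
    have h1 := log_eq C hU hi hc hσ hLi hL2 hl hL
    set A := L2.map (algebraMap ℚ_[ℓ] (PadicAlgCl ℓ)) - (l / 2) • 1 with hA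
    have hAs : SkewMat (B.q.map (algebraMap ℚ (PadicAlgCl ℓ))) A := by
      unfold SkewMat
      rw [hA, Matrix.transpose_sub, Matrix.transpose_smul, Matrix.transpose_one, sub_mul, mul_sub,
        Matrix.smul_mul, Matrix.mul_smul, one_mul, mul_one]
      have h3 : ∀ P Q R : Matrix (Fin (B.n 2)) (Fin (B.n 2)) (PadicAlgCl ℓ),
          P - R + (Q - R) = (P + Q) - (R + R) := fun P Q R => by abel
      rw [h3, hL, ← add_smul, add_halves, sub_self]
    have hAes : Skew X.E.X.q (Matrix.toLin (C.b 2) (C.b 2) A) := by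
      rw [skew_iff C, LinearMap.toMatrix_toLin]
      exact hAs
    refine ⟨Li, L2, (i : PadicAlgCl ℓ) / 4 * l, -(l / 2), Matrix.toLin (C.b 2) (C.b 2) A, hLi, hL2,
      hAes, ?_, ?_⟩
    · rw [LinearMap.toMatrix_toLin, hA, neg_smul, sub_eq_add_neg, add_comm]
      rfl
    · rw [rho_mat C i _ hAes, LinearMap.toMatrix_toLin]
      exact h1
  constructor
  · intro σ hσ
    obtain ⟨Li, L2, c, c', A, hLi, hL2, hA, h1, h2⟩ := key σ hσ
    have h3 : Dg (upc L2) := log_dg hL2 (hd σ hσ)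
    have h4 : SS A := by
      refine ss_of_dg (b := C.b 2) ?_
      rw [h1]
      exact dg_scalar h3 c'
    have h5 := ss_rho X.E.X.symm X.E.X.nondeg X.E.X.dim3 (X.E.X.bracket i) hA h4
    have h6 : Dg (upc Li) := by
      rw [h2]
      exact dg_scalar (dg_of_ss h5) c
    obtain ⟨p, hp⟩ := log_poly (hn σ hσ) hLi
    unfold Diag
    rw [hp, upc_aeval]
    exact dg_aeval h6 _
  · intro σ hσ τ hτ
    obtain ⟨Li, L2, c, c', A, hLi, hL2, hA, h1, h2⟩ := key σ hσ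
    obtain ⟨Li', L2', d, d', A', hLi', hL2', hA', h1', h2'⟩ := key τ hτ
    have h3 : Commute L2 L2' := log_comm hL2 hL2' (hcm σ hσ τ hτ)
    have h4 : A * A' - A' * A = 0 := by
      refine toM_inj C ?_
      rw [map_sub, LinearMap.toMatrix_mul, LinearMap.toMatrix_mul, h1, h1', map_zero, sub_eq_zero]
      have h5 : Commute (upc L2) (upc L2') := by
        change upc L2 * upc L2' = upc L2' * upc L2
        rw [← upc_mul, ← upc_mul, h3.eq]
      exact ((Commute.one_left _).smul_left c').add_left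
        (((Commute.one_right _).smul_right d').add_right h5)
    have h5 := X.E.X.bracket i A A' hA hA'
    rw [h4, map_zero] at h5
    have h6 : Commute (LinearMap.toMatrix (C.b i) (C.b i) (X.E.X.ρ i A))
        (LinearMap.toMatrix (C.b i) (C.b i) (X.E.X.ρ i A')) :=
      (commute_iff C _ _).1 (sub_eq_zero.1 h5.symm)
    have h7 : Commute (upc Li) (upc Li') := by
      rw [h2, h2']
      refine Commute.add_left ?_ ?_
      · exact (Commute.one_left _).smul_left c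
      · exact Commute.add_right ((Commute.one_right _).smul_right d) h6
    have h8 : Commute Li Li' := by
      refine upc_inj ?_
      rw [upc_mul, upc_mul]
      exact h7
    obtain ⟨p, hp⟩ := log_poly (hn σ hσ) hLi
    obtain ⟨p', hp'⟩ := log_poly (hn τ hτ) hLi'
    rw [hp, hp']
    have h9 : ∀ (x y : Matrix (Fin (B.n i)) (Fin (B.n i)) ℚ_[ℓ]), Commute x y →
        ∀ p : Polynomial ℚ_[ℓ], Commute (Polynomial.aeval x p) y := by
      intro x y hxy p
      induction p using Polynomial.induction_on' with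
      | add p q hp hq => rw [map_add]; exact hp.add_left hq
      | monomial n a =>
        rw [Polynomial.aeval_monomial]
        exact (Algebra.commute_algebraMap_left a y).mul_left (hxy.pow_left n)
    exact (h9 _ _ (h9 _ _ h8.symm p').symm p).eq

variable {T : Type} [Fintype T] (Y : T → HKVariety K (PadicAlgCl ℓ)) (BB : ∀ t, LLV (Y t).d)
  (CC : ∀ t, Comparison (Y t) (BB t))

/-- For all `H^i(X_t)` at once. -/
theorem pot_all (hcft : CFT K ℓ)
    (hT : ∀ t, ∀ Q : Ideal (𝓞 (AlgebraicClosure K)), Q.IsMaximal →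
      (ℓ : 𝓞 (AlgebraicClosure K)) ∈ Q → Nonempty (HodgeTate (CC t) Q))
    (hcm : ∀ t, PotAb ((CC t).G 2)) :
    ∃ U : Subgroup (GK K), IsOpen (U : Set (GK K)) ∧ ∀ t, ∀ i ≤ (Y t).d,
      SumOfCharacters U ((CC t).G i) := by
  have h1 : ∀ t, ∀ i, ∃ V : Subgroup (GK K), IsOpen (V : Set (GK K)) ∧ (i ≤ (Y t).d →
      (∀ σ ∈ V, Diag ((CC t).G i σ)) ∧
      ∀ σ ∈ V, ∀ τ ∈ V, (CC t).G i σ * (CC t).G i τ = (CC t).G i τ * (CC t).G i σ) := by
    intro t i
    by_cases hi : i ≤ (Y t).d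
    · obtain ⟨U1, hU1, hc⟩ := triv (CC t) hcft (hT t) hi
      obtain ⟨U2, hU2, hd, hab⟩ := hcm t
      have h2 : ∀ᶠ σ in 𝓝 (1 : GK K), σ ∈ U1 ∧ σ ∈ U2 ∧ NearOne 2 ((CC t).G i σ) ∧
          NearOne 2 ((CC t).G 2 σ) := by
        have h3 : ∀ᶠ σ in 𝓝 (1 : GK K), σ ∈ U1 := hU1.mem_nhds U1.one_mem
        have h4 : ∀ᶠ σ in 𝓝 (1 : GK K), σ ∈ U2 := hU2.mem_nhds U2.one_mem
        filter_upwards [h3, h4, near_one _ (cont_G' (CC t) i) 2,
          near_one _ (cont_G' (CC t) 2) 2] with σ h5 h6 h7 h8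
        exact ⟨h5, h6, h7, h8⟩
      obtain ⟨U, hU, hUO⟩ := exists_open h2
      refine ⟨U, hU, fun _ => ?_⟩
      exact pot_one (CC t) hU hi (fun σ hσ => hc σ (hUO hσ).1) (fun σ hσ => (hUO hσ).2.2.1)
        (fun σ hσ => (hUO hσ).2.2.2) (fun σ hσ => hd σ (hUO hσ).2.1)
        fun σ hσ τ hτ => hab σ (hUO hσ).2.1 τ (hUO hτ).2.1
    · exact ⟨⊤, isOpen_univ, fun h => absurd h hi⟩
  choose V hV hVV using h1
  have h2 : ∀ᶠ σ in 𝓝 (1 : GK K), ∀ t, ∀ i ∈ Finset.range ((Y t).d + 1), σ ∈ V t i := by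
    refine Filter.eventually_all.2 fun t => ?_
    exact (Filter.eventually_all_finset _).2 fun i _ => (hV t i).mem_nhds (V t i).one_mem
  obtain ⟨U, hU, hUO⟩ := exists_open h2
  refine ⟨U, hU, fun t i hi => ?_⟩
  have h3 : ∀ σ ∈ U, σ ∈ V t i := fun σ hσ => hUO hσ t i (Finset.mem_range.2 (by omega))
  exact ⟨fun σ hσ => (hVV t i hi).1 σ (h3 σ hσ),
    fun σ hσ τ hτ => (hVV t i hi).2 σ (h3 σ hσ) τ (h3 τ hτ)⟩

end

section kun

variable {K : Type} [Field K] {ℓ : ℕ} [Fact ℓ.Prime] {T : Type} [Fintype T] {d : T → ℕ}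
  (B : ∀ t, LLV (d t)) (G : ∀ t i, GK K →* Matrix (Fin ((B t).n i)) (Fin ((B t).n i)) ℚ_[ℓ])
  {S : Type} [Fintype S] [DecidableEq S] (τ : S → T) (i : ℕ)

lemma up_kron {I : S → Type} [∀ s, Fintype (I s)] [∀ s, DecidableEq (I s)]
    (A : ∀ s, Matrix (I s) (I s) ℚ_[ℓ]) : upc (kron A) = kron fun s => upc (A s) := by
  ext u v
  change algebraMap ℚ_[ℓ] (PadicAlgCl ℓ) (∏ s, A s (u s) (v s)) = ∏ s, upc (A s) (u s) (v s)
  rw [map_prod]
  rfl

/-- On the cohomology of the products. -/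
theorem pot_kun {U : Subgroup (GK K)} (h : ∀ t, ∀ j ≤ d t, SumOfCharacters U (G t j)) :
    SumOfCharacters U (kunRep B G τ i) := by
  constructor
  · intro σ hσ
    have h1 : upc (kunRep B G τ i σ) = Matrix.blockDiagonal'
        fun a : KIdx (fun s => d (τ s)) i => kron fun s => upc (G (τ s) (a.1 s) σ) := by
      unfold upc kunRep kun
      rw [Matrix.blockDiagonal'_map _ _ (map_zero _)]
      congr 1
      funext a
      exact up_kron _
    unfold Diag
    rw [h1]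
    refine dg_block fun a => dg_kron fun s => ?_
    exact (h (τ s) (a.1 s) (Nat.lt_succ_iff.1 (a.1 s).2)).1 σ hσ
  · intro σ hσ σ' hσ'
    unfold kunRep kun
    rw [← Matrix.blockDiagonal'_mul, ← Matrix.blockDiagonal'_mul]
    congr 1
    funext a
    rw [Run7.h615.MT.kron_mul, Run7.h615.MT.kron_mul]
    congr 1
    funext s
    exact (h (τ s) (a.1 s) (Nat.lt_succ_iff.1 (a.1 s).2)).2 σ hσ σ' hσ'

lemma kun_one : kunRep B G τ i 1 = 1 := by
  unfold kunRep kun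
  have h1 : (fun a : KIdx (fun s => d (τ s)) i => kron fun s => G (τ s) (a.1 s) 1) =
      fun a : KIdx (fun s => d (τ s)) i =>
        (1 : Matrix (∀ s, Fin ((B (τ s)).n (a.1 s))) (∀ s, Fin ((B (τ s)).n (a.1 s))) ℚ_[ℓ]) := by
    funext a
    have h2 : (fun s => G (τ s) (a.1 s) 1) = fun s =>
        (1 : Matrix (Fin ((B (τ s)).n (a.1 s))) (Fin ((B (τ s)).n (a.1 s))) ℚ_[ℓ]) :=
      funext fun s => map_one _
    rw [h2, Run7.h615.MT.kron_one]
  rw [h1]
  exact Matrix.blockDiagonal'_one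

lemma kun_mul (σ σ' : GK K) : kunRep B G τ i (σ * σ') =
    kunRep B G τ i σ * kunRep B G τ i σ' := by
  unfold kunRep kun
  rw [← Matrix.blockDiagonal'_mul]
  congr 1
  funext a
  rw [Run7.h615.MT.kron_mul]
  congr 1
  funext s
  exact map_mul _ _ _

lemma cont_kun (h : ∀ t j, Continuous (G t j)) : Continuous fun σ => kunRep B G τ i σ := by
  unfold kunRep kun
  refine Continuous.matrix_blockDiagonal' ?_
  refine continuous_pi fun a => continuous_pi fun u => continuous_pi fun v => ?_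
  refine continuous_finsetProd _ fun s _ => ?_
  exact (h (τ s) (a.1 s)).matrix_elem (u s) (v s)

end kun

end

end Run7.h158.MT
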