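import Pool.Agent.Run7.h615.MT.P2
import Pool.Agent.N184.HK.Eig

/-!
# Semisimple elements in the representations of `so(V, q)`
-/

set_option autoImplicit false

namespace Run7.h158.MT

open Module Module.End Pool.Agent.N184.HK

/-- The endomorphism `f` is diagonalizable: it acts on its generalized eigenspaces as a scalar. -/
def SS {K V : Type} [Field K] [AddCommGroup V] [Module K V] (f : Module.End K V) : Prop :=
  ∀ e, ∀ x ∈ f.maxGenEigenspace e, f x = e • x

section

variable {K : Type} [Field K] [IsAlgClosed K] {V W : Type} [AddCommGroup V] [Module K V]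
  [FiniteDimensional K V] [AddCommGroup W] [Module K W] [FiniteDimensional K W]

omit [IsAlgClosed K] [FiniteDimensional K V] in
/-- Operators which shift the eigenvalue map generalized eigenspaces to generalized eigenspaces. -/
lemma shift_gen {T b : Module.End K V} {c : K} (h : T * b - b * T = c • b) {e : K} {x : V}
    (hx : x ∈ T.maxGenEigenspace e) : b x ∈ T.maxGenEigenspace (c + e) := by
  rw [Module.End.mem_maxGenEigenspace] at hx ⊢
  obtain ⟨k, hk⟩ := hx
  refine ⟨k, ?_⟩
  have h1 : (T - (c + e) • (1 : Module.End K V)) * b = b * (T - e • (1 : Module.End K V)) := by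
    rw [sub_mul, mul_sub, add_smul, add_mul, smul_mul_assoc, smul_mul_assoc, one_mul,
      mul_smul_comm, mul_one, ← h]
    abel
  have h2 : ∀ k : ℕ, (T - (c + e) • (1 : Module.End K V)) ^ k * b =
      b * (T - e • (1 : Module.End K V)) ^ k := by
    intro k
    induction k with
    | zero => rw [pow_zero, pow_zero, one_mul, mul_one]
    | succ k ih => rw [pow_succ, mul_assoc, h1, ← mul_assoc, ih, mul_assoc, ← pow_succ]
  have h3 := congrArg (fun f : Module.End K V => f x) (h2 k)
  simp only [Module.End.mul_apply] at h3
  rw [h3, hk, map_zero]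

/-- The diagonalizable part has the same commutation relation. -/
lemma fop_shift {T b : Module.End K V} {c : K} (h : T * b - b * T = c • b) :
    fop T (fun y => y) * b - b * fop T (fun y => y) = c • b := by
  refine ext_gen T fun e x hx => ?_
  have h1 := shift_gen h hx
  rw [LinearMap.sub_apply, Module.End.mul_apply, Module.End.mul_apply, fop_apply _ h1,
    fop_apply _ hx, map_smul, add_smul, LinearMap.smul_apply]
  abel

/-- If `A` is diagonalizable then so is the bracket with `A`. -/
lemma ss_ad {A : Module.End K V} (hA : SS A) {c : K} {B : Module.End K V} {k : ℕ}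
    (h : ((LinearMap.mulLeft K A - LinearMap.mulRight K A - c • 1) ^ k) B = 0) :
    A * B - B * A = c • B := by
  refine ext_gen A fun e x hx => ?_
  have h1 : ∀ k : ℕ, ∀ B : Module.End K V,
      (((LinearMap.mulLeft K A - LinearMap.mulRight K A - c • 1) ^ k) B) x =
        ((A - (c + e) • (1 : Module.End K V)) ^ k) (B x) := by
    intro k
    induction k with
    | zero => intro B; rfl
    | succ k ih =>
      intro B
      rw [pow_succ, pow_succ, Module.End.mul_apply, Module.End.mul_apply, ih]
      congr 1
      simp only [LinearMap.sub_apply, LinearMap.mulLeft_apply, LinearMap.mulRight_apply,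
        LinearMap.smul_apply, Module.End.one_apply, Module.End.mul_apply]
      rw [hA e x hx, map_smul, add_smul]
      abel
  have h2 : B x ∈ A.maxGenEigenspace (c + e) := by
    rw [Module.End.mem_maxGenEigenspace]
    exact ⟨k, by rw [← h1, h, LinearMap.zero_apply]⟩
  rw [LinearMap.sub_apply, Module.End.mul_apply, Module.End.mul_apply, hA _ _ h2, hA e x hx,
    map_smul, add_smul, LinearMap.smul_apply]
  abel

/-- The submodule of the skew endomorphisms. -/
def skewSub (q : LinearMap.BilinForm K V) : Submodule K (Module.End K V) where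
  carrier := {A | Skew q A}
  add_mem' {A B} hA hB x y := by
    have h1 := hA x y
    have h2 := hB x y
    simp only [LinearMap.add_apply, map_add]
    linear_combination h1 + h2
  zero_mem' x y := by simp
  smul_mem' c A hA x y := by
    have h1 := hA x y
    simp only [LinearMap.smul_apply, map_smul, smul_eq_mul]
    linear_combination c * h1

omit [IsAlgClosed K] [FiniteDimensional K V] in
lemma skew_bracket {q : LinearMap.BilinForm K V} {A B : Module.End K V} (hA : Skew q A)
    (hB : Skew q B) : Skew q (A * B - B * A) := by
  intro x y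
  have h1 := hA (B x) y
  have h2 := hA x (B y)
  have h3 := hB (A x) y
  have h4 := hB x (A y)
  simp only [LinearMap.sub_apply, map_sub, Module.End.mul_apply]
  linear_combination h1 - h4 - h3 + h2

variable [CharZero K] {q : LinearMap.BilinForm K V} (hs : q.IsSymm) (hq : q.Nondegenerate)
  (h3 : 3 ≤ finrank K V) {ρ : Module.End K V →ₗ[K] Module.End K W}
  (hρ : ∀ A B, Skew q A → Skew q B → ρ (A * B - B * A) = ρ A * ρ B - ρ B * ρ A)

include hs hq h3 hρ in
/-- **Diagonalizable elements of `so(V, q)` are diagonalizable in all representations.** -/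
theorem ss_rho {A : Module.End K V} (hA : Skew q A) (hss : SS A) : SS (ρ A) := by
  set T := ρ A with hT
  set s := fop T (fun y => y) with hsdef
  -- `s` and `T` have the same commutators with `so(V, q)`
  have hst : ∀ B ∈ skewSub q, (LinearMap.mulLeft K A - LinearMap.mulRight K A) B ∈ skewSub q :=
    fun B hB => skew_bracket hA hB
  have key : (((LinearMap.mulLeft K (T - s) - LinearMap.mulRight K (T - s)) ∘ₗ ρ) ∘ₗ
      (skewSub q).subtype) = 0 := by
    refine ext_gen ((LinearMap.mulLeft K A - LinearMap.mulRight K A).restrict hst)
      fun c B hB => ?_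
    rw [Module.End.mem_maxGenEigenspace] at hB
    obtain ⟨k, hk⟩ := hB
    have h1 : ∀ (k : ℕ) (B : skewSub q), (((((LinearMap.mulLeft K A -
        LinearMap.mulRight K A).restrict hst - c • 1) ^ k) B : skewSub q) : Module.End K V) =
        ((LinearMap.mulLeft K A - LinearMap.mulRight K A - c • 1) ^ k) (B : Module.End K V) := by
      intro k
      induction k with
      | zero => intro B; rfl
      | succ k ih =>
        intro B
        rw [pow_succ, pow_succ, Module.End.mul_apply, Module.End.mul_apply, ih]
        rfl
    have h2 := ss_ad hss (c := c) (k := k) (B := (B : Module.End K V)) (by rw [← h1, hk]; rfl)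
    have h4 : T * ρ B - ρ B * T = c • ρ B := by
      rw [hT, ← hρ A B hA B.2, h2, map_smul]
    have h5 := fop_shift h4
    rw [LinearMap.zero_apply]
    change (T - s) * ρ B - ρ B * (T - s) = 0
    rw [sub_mul, mul_sub, hsdef]
    rw [show T * ρ B - fop T (fun y => y) * ρ B - (ρ B * T - ρ B * fop T fun y => y) =
      (T * ρ B - ρ B * T) - (fop T (fun y => y) * ρ B - ρ B * fop T fun y => y) by abel, h4, h5,
      sub_self]
  have hcen : ∀ B, Skew q B → Commute (ρ B) (T - s) := by
    intro B hB
    have h1 := congrArg (fun f => f (⟨B, hB⟩ : skewSub q)) key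
    have h2 : (T - s) * ρ B - ρ B * (T - s) = 0 := h1
    exact (sub_eq_zero.1 h2).symm
  have hcc : ∀ c : Module.End K W, (∀ B, Skew q B → Commute (ρ B) c) → Commute c (T - s) := by
    intro c hc
    have h1 : Commute c T := (hc A hA).symm
    exact h1.sub_right (fop_comm h1 _)
  have h0 := Run7.h615.MT.t_NILZ K V W q hs hq h3 ρ hρ (T - s) hcen hcc (by
    intro z hzz hz
    refine tr_nil ?_
    exact Commute.isNilpotent_mul_right (hcc z hz).symm (nil_part T))
  intro e x hx
  have h1 : T = s := sub_eq_zero.1 h0
  have h2 : s x = e • x := fop_apply _ hx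
  rw [← h1] at h2
  exact h2

end

end Run7.h158.MT
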